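import Pool.Agent.helper83.SB.Spec


/-!
Row SHA of the bridge sb: (MP_d2d7b9_gt): a point of the shell gives a minimizer.
-/

open scoped Pointwise ContDiff
open MeasureTheory Set Filter Topology

namespace Pool.Agent.helper83.SB

open Pool.Agent.helper83.SC

theorem SHA_hE_smul {n : ℕ} (K : Set (E n)) (c : ℝ) (hc : 0 ≤ c) (w : E n) :
    hE K (c • w) = c * hE K w := by
  unfold hE
  have h1 : (fun x : E n => (inner ℝ x (c • w) : ℝ)) '' K
      = c • ((fun x : E n => (inner ℝ x w : ℝ)) '' K) := by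
    ext t
    constructor
    · rintro ⟨x, hx, rfl⟩
      exact ⟨inner ℝ x w, ⟨x, hx, rfl⟩, by simp [inner_smul_right]⟩
    · rintro ⟨_, ⟨x, hx, rfl⟩, rfl⟩
      exact ⟨x, hx, by simp [inner_smul_right]⟩
  rw [h1, Real.sSup_smul_of_nonneg hc, smul_eq_mul]

theorem SHA_of (hPTC : PTC_stmt) (hDIR : DIR_stmt) : SHA_stmt := by
  intro m b K hK p s hd hlast
  obtain ⟨-, -, hin, -, -, -, -, hcomb, -⟩ := hPTC b
  obtain ⟨hn, -, -, hle, heq⟩ := hDIR hK (pt b p s) hd
  set ν := dir K (pt b p s) with hν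
  set c : ℝ := (coord b ν).2 with hc
  set y : E m := c⁻¹ • (coord b ν).1 with hy
  set d : ℝ := Metric.infDist (pt b p s) K with hdd
  have h1 : ν = c • emb b y := hcomb ν hlast.ne'
  have h2 : c * ‖emb b y‖ = 1 := by
    have e0 : ‖c • emb b y‖ = c * ‖emb b y‖ := by
      rw [norm_smul, Real.norm_of_nonneg hlast.le]
    rw [← e0, ← h1, hn]
  have h3 : inner ℝ (pt b p s) (emb b y) = hE K (emb b y) + d * ‖emb b y‖ := by
    have e1 : c * inner ℝ (pt b p s) (emb b y) = c * (hE K (emb b y) + d * ‖emb b y‖) := by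
      rw [← inner_smul_right, ← h1, heq, mul_add, ← SHA_hE_smul K c hlast.le, ← h1]
      have : c * (d * ‖emb b y‖) = d * (c * ‖emb b y‖) := by ring
      rw [this, h2, mul_one]
    exact mul_left_cancel₀ hlast.ne' e1
  have h4 : s = ft b K d y - inner ℝ p y := by
    rw [hin] at h3
    simp only [ft, chart]
    linarith
  refine ⟨fun w => ?_, h4⟩
  rw [← h4]
  have h5 := hle (emb b w)
  rw [hin] at h5
  simp only [ft, chart]
  linarith

end Pool.Agent.helper83.SB
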